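import Pool.Agent.H89.Perc.OSSS
import Pool.Agent.H89.Perc.FKG

/-!
# The OSSS inequality for explorations that reveal whole blocks of edges
-/

open MeasureTheory ProbabilityTheory unitInterval

namespace Pool.Agent.H85.Kes

open Pool.Agent.H89.Perc
open Pool.Agent.Perc (Ex ind ind_of ind_of_not MonoOnF)

variable {κ : Type*} [DecidableEq κ]

/-- A block exploration rule: given the set of revealed blocks and the set of open edges in these
blocks it says which block to reveal next (or stops). -/
abbrev BRule (κ : Type*) := Finset κ → Finset Edge → Option κ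

variable (s : Finset Edge) (β : Edge → κ) (R : BRule κ)

/-- The edges of a block. -/
def blk (b : κ) : Finset Edge := s.filter (fun e => β e = b)

/-- One step of the block exploration of `ω`. -/
def bStep (ω : Config) (x : Finset κ × Finset Edge) : Finset κ × Finset Edge :=
  match R x.1 x.2 with
  | none => x
  | some b => (insert b x.1, x.2 ∪ (blk s β b).filter (fun e => ω e = true))

/-- The revealed blocks when the exploration starts from a given state. -/
def bFrom (ω : Config) (n : ℕ) (x : Finset κ × Finset Edge) : Finset κ :=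
  ((bStep s β R ω)^[n] x).1

/-- The blocks revealed during the first `n` steps. -/
def revealed (ω : Config) (n : ℕ) : Finset κ := bFrom s β R ω n (∅, ∅)

variable {s β R}

omit [DecidableEq κ] in
lemma mem_blk [DecidableEq κ] {b : κ} {e : Edge} : e ∈ blk s β b ↔ e ∈ s ∧ β e = b := by
  simp [blk]

lemma bStep_none {ω : Config} {x : Finset κ × Finset Edge} (h : R x.1 x.2 = none) :
    bStep s β R ω x = x := by
  unfold bStep; rw [h]

lemma bStep_some {ω : Config} {x : Finset κ × Finset Edge} {b : κ} (h : R x.1 x.2 = some b) :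
    bStep s β R ω x = (insert b x.1, x.2 ∪ (blk s β b).filter (fun e => ω e = true)) := by
  unfold bStep; rw [h]

lemma bFrom_succ (ω : Config) (n : ℕ) (x : Finset κ × Finset Edge) :
    bFrom s β R ω (n + 1) x = bFrom s β R ω n (bStep s β R ω x) := by
  unfold bFrom
  rw [Function.iterate_succ_apply]

lemma bStep_subset (ω : Config) (x : Finset κ × Finset Edge) : x.1 ⊆ (bStep s β R ω x).1 := by
  rcases h : R x.1 x.2 with _ | b
  · rw [bStep_none h]
  · rw [bStep_some h]
    exact Finset.subset_insert _ _

lemma subset_bFrom (ω : Config) (n : ℕ) (x : Finset κ × Finset Edge) :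
    x.1 ⊆ bFrom s β R ω n x := by
  induction n generalizing x with
  | zero => exact le_rfl
  | succ n ih =>
    rw [bFrom_succ]
    exact (bStep_subset ω x).trans (ih _)

lemma bFrom_none {ω : Config} {x : Finset κ × Finset Edge} (h : R x.1 x.2 = none) (n : ℕ) :
    bFrom s β R ω n x = x.1 := by
  induction n with
  | zero => rfl
  | succ n ih => rw [bFrom_succ, bStep_none h, ih]

/-- Influence of the block `b` on a function of the subsets of `F`. -/
noncomputable def bInf (p : ℝ) (F : Finset Edge) (B : Finset Edge) (g : Finset Edge → ℝ) : ℝ :=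
  Ex p F (fun S => g (S ∪ B) - g (S \ B))

lemma bInf_nonneg {p : ℝ} (h0 : 0 ≤ p) (h1 : p ≤ 1) {F B : Finset Edge} (hB : B ⊆ F)
    {g : Finset Edge → ℝ} (hg : MonoOnF F g) : 0 ≤ bInf p F B g := by
  refine Pool.Agent.Perc.Ex_nonneg h0 h1 fun S hS => sub_nonneg.2 ?_
  exact hg _ _ (Finset.sdiff_subset.trans Finset.subset_union_left)
    (Finset.union_subset hS hB)

/-- The covariance inequality for block explorations, by induction on the number of steps. -/
theorem block_cov {p : ℝ} (hp0 : 0 ≤ p) (hp1 : p ≤ 1) {K : Finset κ} (hK : ∀ e ∈ s, β e ∈ K)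
    (hR : ∀ D O b, R D O = some b → b ∈ K ∧ b ∉ D) (n : ℕ) :
    ∀ (D : Finset κ) (O : Finset Edge), (K \ D).card ≤ n → (∀ e ∈ O, β e ∈ D) →
    ∀ f g : Finset Edge → ℝ, (∀ S, S ⊆ s.filter (fun e => β e ∉ D) → 0 ≤ f S ∧ f S ≤ 1) →
    MonoOnF (s.filter (fun e => β e ∉ D)) g →
    (∀ S S', S ⊆ s.filter (fun e => β e ∉ D) → S' ⊆ s.filter (fun e => β e ∉ D) →
      (∀ e ∈ s.filter (fun e => β e ∉ D), β e ∈ bFrom s β R (ofS (O ∪ S)) n (D, O) →
        (e ∈ S ↔ e ∈ S')) → f S = f S') →
    |Ex p (s.filter (fun e => β e ∉ D)) (fun S => f S * g S) -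
        Ex p (s.filter (fun e => β e ∉ D)) f * Ex p (s.filter (fun e => β e ∉ D)) g| ≤
      ∑ b ∈ K \ D, Ex p (s.filter (fun e => β e ∉ D))
          (ind fun S => b ∈ bFrom s β R (ofS (O ∪ S)) n (D, O)) *
        bInf p (s.filter (fun e => β e ∉ D)) (blk s β b) g := by
  have hRHS : ∀ (D : Finset κ) (A : κ → Finset Edge → Prop) (g : Finset Edge → ℝ),
      MonoOnF (s.filter (fun e => β e ∉ D)) g →
      0 ≤ ∑ b ∈ K \ D, Ex p (s.filter (fun e => β e ∉ D)) (ind (A b)) *
        bInf p (s.filter (fun e => β e ∉ D)) (blk s β b) g := by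
    intro D A g hg
    refine Finset.sum_nonneg fun b hb => mul_nonneg ?_ ?_
    · exact Pool.Agent.Perc.Ex_nonneg hp0 hp1 fun S _ => Pool.Agent.Perc.ind_nonneg _ _
    · refine bInf_nonneg hp0 hp1 ?_ hg
      intro e he
      rw [mem_blk] at he
      rw [Finset.mem_filter]
      exact ⟨he.1, by rw [he.2]; exact (Finset.mem_sdiff.1 hb).2⟩
  induction n with
  | zero =>
    intro D O hD _ f g _ _ _
    have hKD : K \ D = ∅ := Finset.card_eq_zero.1 (Nat.le_zero.1 hD)
    have hF : s.filter (fun e => β e ∉ D) = ∅ := by
      rw [Finset.filter_eq_empty_iff]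
      intro e he h
      have : β e ∈ K \ D := Finset.mem_sdiff.2 ⟨hK e he, h⟩
      rw [hKD] at this
      exact absurd this (Finset.notMem_empty _)
    rw [hF, hKD]
    simp
  | succ n ih =>
    intro D O hD hO f g hf hg hdet
    rcases hNe : R D O with _ | b
    · -- the exploration has stopped: `f` is constant
      set F := s.filter (fun e => β e ∉ D) with hF
      have hconst : ∀ S, S ⊆ F → f S = f ∅ := by
        intro S hS
        refine hdet S ∅ hS (Finset.empty_subset _) fun e heF he => ?_
        rw [bFrom_none (x := (D, O)) hNe] at he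
        exact absurd he (Finset.mem_filter.1 heF).2
      have h1 : Ex p F (fun S => f S * g S) = f ∅ * Ex p F g := by
        rw [← Pool.Agent.Perc.Ex_const_mul]
        exact Pool.Agent.Perc.Ex_congr fun S hS => by rw [hconst S hS]
      have h2 : Ex p F f = f ∅ := by
        rw [Pool.Agent.Perc.Ex_congr hconst, Pool.Agent.Perc.Ex_const]
      rw [h1, h2, sub_self, abs_zero]
      exact hRHS D _ g hg
    · obtain ⟨hbK, hbD⟩ := hR D O b hNe
      set F := s.filter (fun e => β e ∉ D) with hF
      set B := blk s β b with hB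
      set F' := s.filter (fun e => β e ∉ insert b D) with hF'
      have hBF : B ⊆ F := by
        intro e he
        rw [hB, mem_blk] at he
        rw [hF, Finset.mem_filter]
        exact ⟨he.1, by rw [he.2]; exact hbD⟩
      have hF'F : F' ⊆ F := by
        intro e he
        rw [hF', Finset.mem_filter, Finset.mem_insert, not_or] at he
        rw [hF, Finset.mem_filter]
        exact ⟨he.1, he.2.2⟩
      have hBF' : Disjoint B F' := by
        rw [Finset.disjoint_left]
        intro e he he'
        rw [hB, mem_blk] at he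
        rw [hF', Finset.mem_filter, Finset.mem_insert, not_or] at he'
        exact he'.2.1 he.2
      have hU : B ∪ F' = F := by
        ext e
        rw [Finset.mem_union, hB, mem_blk, hF', Finset.mem_filter, hF, Finset.mem_filter,
          Finset.mem_insert]
        constructor
        · rintro (h | h)
          · exact ⟨h.1, by rw [h.2]; exact hbD⟩
          · exact ⟨h.1, fun h' => h.2 (Or.inr h')⟩
        · rintro ⟨h1, h2⟩
          by_cases h : β e = b
          · exact Or.inl ⟨h1, h⟩
          · exact Or.inr ⟨h1, fun h' => h'.elim h h2⟩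
      have hcard : (K \ insert b D).card ≤ n := by
        have h1 : K \ insert b D = (K \ D).erase b := by
          ext x
          simp only [Finset.mem_sdiff, Finset.mem_insert, Finset.mem_erase, not_or]
          tauto
        rw [h1, Finset.card_erase_of_mem (Finset.mem_sdiff.2 ⟨hbK, hbD⟩)]
        omega
      -- expectations over `F`
      have hE : ∀ h : Finset Edge → ℝ, Ex p F h =
          Ex p B (fun T => Ex p F' (fun S => h (T ∪ S))) := by
        intro h
        rw [← Pool.Agent.Perc.Ex_union hBF', hU]
      have hsub : ∀ T S, T ⊆ B → S ⊆ F' → T ∪ S ⊆ F := fun T S hT hS =>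
        Finset.union_subset (hT.trans hBF) (hS.trans hF'F)
      -- the next state
      have hst : ∀ T S, T ⊆ B → S ⊆ F' → bFrom s β R (ofS (O ∪ (T ∪ S))) (n + 1) (D, O) =
          bFrom s β R (ofS ((O ∪ T) ∪ S)) n (insert b D, O ∪ T) := by
        intro T S hT hS
        rw [bFrom_succ, bStep_some (x := (D, O)) hNe, ← Finset.union_assoc]
        congr 2
        congr 1
        ext e
        rw [Finset.mem_filter, ofS_eq_true, Finset.mem_union, Finset.mem_union]
        constructor
        · rintro ⟨h1, (h2 | h2) | h2⟩
          · exfalso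
            have h3 := hO e h2
            rw [mem_blk] at h1
            rw [h1.2] at h3
            exact hbD h3
          · exact h2
          · exact absurd (hS h2) (Finset.disjoint_left.1 hBF' h1)
        · intro h
          exact ⟨hT h, Or.inl (Or.inr h)⟩
      set gb : Finset Edge → ℝ := fun S => Ex p B (fun T => g (T ∪ S)) with hgb
      have hgbm : MonoOnF F' gb := by
        intro S S' h1 h2
        refine Pool.Agent.Perc.Ex_mono hp0 hp1 fun T hT => ?_
        exact hg _ _ (Finset.union_subset_union_right h1) (hsub T S' hT h2)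
      -- induction hypothesis for every configuration `T` of the block
      have IH : ∀ T, T ⊆ B → |Ex p F' (fun S => f (T ∪ S) * gb S) -
          Ex p F' (fun S => f (T ∪ S)) * Ex p F' gb| ≤
          ∑ x ∈ K \ insert b D, Ex p F'
            (ind fun S => x ∈ bFrom s β R (ofS ((O ∪ T) ∪ S)) n (insert b D, O ∪ T)) *
          bInf p F' (blk s β x) gb := by
        intro T hT
        refine ih (insert b D) (O ∪ T) hcard ?_ (fun S => f (T ∪ S)) gb ?_ hgbm ?_
        · intro e he
          rcases Finset.mem_union.1 he with h | h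
          · exact Finset.mem_insert_of_mem (hO e h)
          · have := hT h
            rw [hB, mem_blk] at this
            rw [this.2]
            exact Finset.mem_insert_self _ _
        · intro S hS
          exact hf _ (hsub T S hT hS)
        · intro S S' hS hS' h
          refine hdet _ _ (hsub T S hT hS) (hsub T S' hT hS') fun e heF he => ?_
          rw [hst T S hT hS] at he
          rw [Finset.mem_union, Finset.mem_union]
          by_cases heB : e ∈ B
          · have h1 : e ∉ S := fun h' => Finset.disjoint_left.1 hBF' heB (hS h')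
            have h2 : e ∉ S' := fun h' => Finset.disjoint_left.1 hBF' heB (hS' h')
            tauto
          · have heF' : e ∈ F' := by
              rw [← hU, Finset.mem_union] at heF
              exact heF.resolve_left heB
            have := h e heF' he
            tauto
      -- decomposition of the covariance
      have hEg : Ex p F g = Ex p F' gb := by
        rw [hE g, Pool.Agent.Perc.Ex_comm]
      set Rm : ℝ := Ex p B (fun T => Ex p F' (fun S => f (T ∪ S) * (g (T ∪ S) - gb S))) with hRm
      have hdec : Ex p F (fun S => f S * g S) - Ex p F f * Ex p F g =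
          Ex p B (fun T => Ex p F' (fun S => f (T ∪ S) * gb S) -
            Ex p F' (fun S => f (T ∪ S)) * Ex p F' gb) + Rm := by
        rw [hE (fun S => f S * g S), hE f, hEg, hRm, Pool.Agent.Perc.Ex_sub,
          Pool.Agent.Perc.Ex_mul_const]
        have : ∀ T, T ⊆ B → Ex p F' (fun S => f (T ∪ S) * g (T ∪ S)) =
            Ex p F' (fun S => f (T ∪ S) * gb S) +
              Ex p F' (fun S => f (T ∪ S) * (g (T ∪ S) - gb S)) := by
          intro T _
          rw [← Pool.Agent.Perc.Ex_add]
          exact Pool.Agent.Perc.Ex_congr fun S _ => by ring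
        rw [Pool.Agent.Perc.Ex_congr this, Pool.Agent.Perc.Ex_add]
        ring
      -- the influence of the block `b`
      have hinfb : bInf p F B g = Ex p F' (fun S => g (B ∪ S) - g S) := by
        unfold bInf
        rw [hE]
        have : ∀ T, T ⊆ B → Ex p F' (fun S => g (T ∪ S ∪ B) - g ((T ∪ S) \ B)) =
            Ex p F' (fun S => g (B ∪ S) - g S) := by
          intro T hT
          refine Pool.Agent.Perc.Ex_congr fun S hS => ?_
          have h1 : T ∪ S ∪ B = B ∪ S := by
            ext x
            have := @hT x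
            simp only [Finset.mem_union]
            tauto
          have h2 : (T ∪ S) \ B = S := by
            ext x
            have h3 := @hT x
            have h4 : x ∈ S → x ∉ B := fun h h' => Finset.disjoint_left.1 hBF' h' (hS h)
            simp only [Finset.mem_union, Finset.mem_sdiff]
            tauto
          rw [h1, h2]
        rw [Pool.Agent.Perc.Ex_congr this, Pool.Agent.Perc.Ex_const]
      have hRle : |Rm| ≤ bInf p F B g := by
        rw [hinfb, hRm]
        have h1 : |Ex p B (fun T => Ex p F' (fun S => f (T ∪ S) * (g (T ∪ S) - gb S)))| ≤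
            Ex p B (fun _ => Ex p F' (fun S => g (B ∪ S) - g S)) := by
          refine (Pool.Agent.Perc.abs_Ex_le hp0 hp1 _).trans ?_
          refine Pool.Agent.Perc.Ex_mono hp0 hp1 fun T hT => ?_
          refine (Pool.Agent.Perc.abs_Ex_le hp0 hp1 _).trans ?_
          refine Pool.Agent.Perc.Ex_mono hp0 hp1 fun S hS => ?_
          have hSF : B ∪ S ⊆ F := hsub B S le_rfl hS
          have b1 : g S ≤ g (T ∪ S) := hg _ _ Finset.subset_union_right (hsub T S hT hS)
          have b2 : g (T ∪ S) ≤ g (B ∪ S) := hg _ _ (Finset.union_subset_union_left hT) hSF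
          have b3 : g S ≤ gb S := by
            have : Ex p B (fun _ => g S) ≤ gb S := Pool.Agent.Perc.Ex_mono hp0 hp1 fun T' hT' =>
              hg _ _ Finset.subset_union_right (hsub T' S hT' hS)
            rwa [Pool.Agent.Perc.Ex_const] at this
          have b4 : gb S ≤ g (B ∪ S) := by
            have : gb S ≤ Ex p B (fun _ => g (B ∪ S)) :=
              Pool.Agent.Perc.Ex_mono hp0 hp1 fun T' hT' =>
                hg _ _ (Finset.union_subset_union_left hT') hSF
            rwa [Pool.Agent.Perc.Ex_const] at this
          have b5 := hf _ (hsub T S hT hS)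
          rw [abs_mul, abs_of_nonneg b5.1]
          have b6 : |g (T ∪ S) - gb S| ≤ g (B ∪ S) - g S := by
            rw [abs_le]; constructor <;> linarith
          calc f (T ∪ S) * |g (T ∪ S) - gb S| ≤ 1 * |g (T ∪ S) - gb S| :=
                mul_le_mul_of_nonneg_right b5.2 (abs_nonneg _)
            _ ≤ _ := by rw [one_mul]; exact b6
        rwa [Pool.Agent.Perc.Ex_const] at h1
      -- influences of the averaged function
      have hinf : ∀ x ∈ K \ insert b D, bInf p F' (blk s β x) gb = bInf p F (blk s β x) g := by
        intro x hx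
        rw [Finset.mem_sdiff, Finset.mem_insert, not_or] at hx
        unfold bInf
        rw [hE, Pool.Agent.Perc.Ex_comm]
        refine Pool.Agent.Perc.Ex_congr fun S hS => ?_
        rw [hgb, ← Pool.Agent.Perc.Ex_sub]
        refine Pool.Agent.Perc.Ex_congr fun T hT => ?_
        have hTx : Disjoint T (blk s β x) := by
          rw [Finset.disjoint_left]
          intro e he he'
          have h1 := hT he
          rw [hB, mem_blk] at h1
          rw [mem_blk] at he'
          exact hx.2.1 (he'.2.symm.trans h1.2)
        have h1 : T ∪ (S ∪ blk s β x) = T ∪ S ∪ blk s β x := by rw [Finset.union_assoc]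
        have h2 : T ∪ (S \ blk s β x) = (T ∪ S) \ blk s β x := by
          rw [Finset.union_sdiff_distrib, Finset.sdiff_eq_self_of_disjoint hTx]
        simp only [h1, h2]
      -- probabilities of being revealed
      have hQ : ∀ x, Ex p F (ind fun S => x ∈ bFrom s β R (ofS (O ∪ S)) (n + 1) (D, O)) =
          Ex p B (fun T => Ex p F' (ind fun S => x ∈ bFrom s β R (ofS ((O ∪ T) ∪ S)) n
            (insert b D, O ∪ T))) := by
        intro x
        rw [hE]
        refine Pool.Agent.Perc.Ex_congr fun T hT => Pool.Agent.Perc.Ex_congr fun S hS => ?_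
        refine Pool.Agent.Perc.ind_congr ?_
        rw [hst T S hT hS]
      have hQb : Ex p F (ind fun S => b ∈ bFrom s β R (ofS (O ∪ S)) (n + 1) (D, O)) = 1 := by
        have : ∀ S, S ⊆ F → ind (fun S => b ∈ bFrom s β R (ofS (O ∪ S)) (n + 1) (D, O)) S = 1 := by
          intro S _
          refine Pool.Agent.Perc.ind_of
            (A := fun S => b ∈ bFrom s β R (ofS (O ∪ S)) (n + 1) (D, O)) ?_
          rw [bFrom_succ, bStep_some (x := (D, O)) hNe]
          exact subset_bFrom _ _ _ (Finset.mem_insert_self _ _)
        rw [Pool.Agent.Perc.Ex_congr this, Pool.Agent.Perc.Ex_const]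
      have hsplit : ∑ x ∈ K \ D, Ex p F (ind fun S => x ∈ bFrom s β R (ofS (O ∪ S)) (n + 1) (D, O)) *
            bInf p F (blk s β x) g =
          bInf p F B g + ∑ x ∈ K \ insert b D,
            Ex p F (ind fun S => x ∈ bFrom s β R (ofS (O ∪ S)) (n + 1) (D, O)) *
            bInf p F (blk s β x) g := by
        have h1 : K \ D = insert b (K \ insert b D) := by
          ext x
          simp only [Finset.mem_sdiff, Finset.mem_insert, not_or]
          by_cases hx : x = b
          · subst hx; simp [hbK, hbD]
          · simp [hx]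
        rw [h1, Finset.sum_insert (by simp), hQb, one_mul]
      rw [hsplit, hdec]
      refine (abs_add_le _ _).trans ?_
      rw [add_comm]
      refine add_le_add hRle ?_
      refine (Pool.Agent.Perc.abs_Ex_le hp0 hp1 _).trans ?_
      refine (Pool.Agent.Perc.Ex_mono hp0 hp1 IH).trans ?_
      rw [Pool.Agent.Perc.Ex_sum]
      refine Finset.sum_le_sum fun x hx => ?_
      rw [Pool.Agent.Perc.Ex_mul_const, hinf x hx, hQ x]

/-! ### Version for local events -/

/-- The configuration with all edges of the finite set `B` set to `b`. -/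
def setB (B : Finset Edge) (b : Bool) (ω : Config) : Config := fun e => if e ∈ B then b else ω e

/-- The set of edges `B` is pivotal for `A`. -/
def BPiv (B : Finset Edge) (A : Set Config) : Set Config :=
  {ω | setB B true ω ∈ A ∧ setB B false ω ∉ A}

lemma setB_ofS_true (B S : Finset Edge) : setB B true (ofS S) = ofS (S ∪ B) := by
  funext e
  by_cases h : e ∈ B <;> simp [setB, ofS, h]

lemma setB_ofS_false (B S : Finset Edge) : setB B false (ofS S) = ofS (S \ B) := by
  funext e
  by_cases h : e ∈ B <;> simp [setB, ofS, h]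

lemma setB_mono {B : Finset Edge} (ω : Config) (e : Edge) (h : setB B false ω e = true) :
    setB B true ω e = true := by
  by_cases h' : e ∈ B
  · simp [setB, h']
  · simpa [setB, h'] using h

lemma localOn_BPiv {A : Set Config} (hA : LocalOn s A) (B : Finset Edge) :
    LocalOn s (BPiv B A) := by
  rintro ω ω' h ⟨h1, h2⟩
  have key : ∀ b : Bool, ∀ e ∈ s, setB B b ω e = setB B b ω' e := by
    intro b e he
    unfold setB
    split_ifs
    · rfl
    · exact h e he
  exact ⟨hA _ _ (key true) h1, fun h3 => h2 (hA _ _ (fun e he => (key false e he).symm) h3)⟩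

lemma Pr_BPiv {A : Set Config} (hA : LocalOn s A) (iA : Incr A) (p : I) (B : Finset Edge) :
    Pr p (BPiv B A) = bInf (p : ℝ) s B (ind fun S => ofS S ∈ A) := by
  rw [Pr_eq_Ex (localOn_BPiv hA B)]
  unfold bInf
  refine Pool.Agent.Perc.Ex_congr fun S _ => ?_
  by_cases h1 : ofS (S ∪ B) ∈ A
  · by_cases h2 : ofS (S \ B) ∈ A
    · rw [ind_of (A := fun S => ofS S ∈ A) h1, ind_of (A := fun S => ofS S ∈ A) h2, sub_self,
        ind_of_not]
      rintro ⟨_, h4⟩
      rw [setB_ofS_false] at h4
      exact h4 h2
    · rw [ind_of (A := fun S => ofS S ∈ A) h1, ind_of_not (A := fun S => ofS S ∈ A) h2, sub_zero,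
        ind_of]
      refine ⟨?_, ?_⟩
      · rw [setB_ofS_true]; exact h1
      · rw [setB_ofS_false]; exact h2
  · have h2 : ¬ ofS (S \ B) ∈ A := fun h => h1 (iA _ _ (ofS_mono
      (Finset.sdiff_subset.trans Finset.subset_union_left)) h)
    rw [ind_of_not (A := fun S => ofS S ∈ A) h1, ind_of_not (A := fun S => ofS S ∈ A) h2, sub_self,
      ind_of_not]
    rintro ⟨h3, _⟩
    rw [setB_ofS_true] at h3
    exact h1 h3

lemma bStep_congr {ω ω' : Config} {x : Finset κ × Finset Edge}
    (h : ∀ b, R x.1 x.2 = some b → ∀ e ∈ blk s β b, ω e = ω' e) :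
    bStep s β R ω x = bStep s β R ω' x := by
  rcases hN : R x.1 x.2 with _ | b
  · rw [bStep_none hN, bStep_none hN]
  · rw [bStep_some hN, bStep_some hN]
    congr 2
    refine Finset.filter_congr fun e he => ?_
    rw [h b hN e he]

lemma localOn_revealed (n : ℕ) (b : κ) : LocalOn s {ω | b ∈ revealed s β R ω n} := by
  intro ω ω' h hω
  have : bStep s β R ω = bStep s β R ω' := funext fun x =>
    bStep_congr fun b _ e he => h e (mem_blk.1 he).1
  simp only [Set.mem_ofPred_eq, revealed, bFrom] at hω ⊢
  rwa [← this]

/-- If two configurations agree on the blocks revealed by the first one, then they have the same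
exploration. -/
lemma bFrom_congr {ω ω' : Config} (n : ℕ) (x : Finset κ × Finset Edge)
    (h : ∀ e ∈ s, β e ∈ bFrom s β R ω n x → ω e = ω' e) :
    bFrom s β R ω' n x = bFrom s β R ω n x := by
  induction n generalizing x with
  | zero => rfl
  | succ n ih =>
    have hstep : bStep s β R ω x = bStep s β R ω' x := by
      refine bStep_congr fun b hb e he => ?_
      rw [mem_blk] at he
      refine h e he.1 ?_
      rw [bFrom_succ, he.2]
      refine subset_bFrom _ _ _ ?_
      rw [bStep_some hb]
      exact Finset.mem_insert_self _ _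
    rw [bFrom_succ, bFrom_succ, ← hstep]
    refine ih _ fun e he h' => h e he ?_
    rw [bFrom_succ]
    exact h'

/-- **Block OSSS inequality** for an increasing local event determined by a block exploration. -/
theorem block_osss {A : Set Config} (hA : LocalOn s A) (iA : Incr A) {K : Finset κ}
    (hK : ∀ e ∈ s, β e ∈ K) (hR : ∀ D O b, R D O = some b → b ∈ K ∧ b ∉ D)
    (hdet : ∀ ω ω' : Config, (∀ e ∈ s, β e ∈ revealed s β R ω K.card → ω e = ω' e) →
      ω ∈ A → ω' ∈ A) (p : I) :
    Pr p A * (1 - Pr p A) ≤
      ∑ b ∈ K, Pr p {ω | b ∈ revealed s β R ω K.card} * Pr p (BPiv (blk s β b) A) := by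
  have hp0 : 0 ≤ (p : ℝ) := p.2.1
  have hp1 : (p : ℝ) ≤ 1 := p.2.2
  have hs : s.filter (fun e => β e ∉ (∅ : Finset κ)) = s := by simp
  have hK' : K \ (∅ : Finset κ) = K := Finset.sdiff_empty
  have key := block_cov (s := s) (β := β) (R := R) hp0 hp1 hK hR K.card ∅ ∅ (by rw [hK'])
    (by simp) (ind fun S => ofS S ∈ A) (ind fun S => ofS S ∈ A)
    (fun S _ => ⟨Pool.Agent.Perc.ind_nonneg _ _, Pool.Agent.Perc.ind_le_one _ _⟩)
    (iA.monoOnF _)
    (by
      intro S S' hS hS' h
      rw [hs] at hS hS' h
      rw [Finset.empty_union] at h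
      have h1 : ∀ e ∈ s, β e ∈ revealed s β R (ofS S) K.card → ofS S e = ofS S' e := by
        intro e he hr
        rw [ofS_apply, ofS_apply, decide_eq_decide]
        exact h e he hr
      refine Pool.Agent.Perc.ind_congr ⟨hdet _ _ h1, fun h2 => ?_⟩
      refine hdet _ _ (fun e he hr => (h1 e he ?_).symm) h2
      unfold revealed at hr h1 ⊢
      rwa [bFrom_congr K.card (∅, ∅) h1] at hr)
  rw [hs, hK'] at key
  have hcov : Ex (p : ℝ) s (fun S => ind (fun S => ofS S ∈ A) S * ind (fun S => ofS S ∈ A) S) -
      Ex (p : ℝ) s (ind fun S => ofS S ∈ A) * Ex (p : ℝ) s (ind fun S => ofS S ∈ A) =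
      Pr p A * (1 - Pr p A) := by
    rw [Pr_eq_Ex hA p]
    have : Ex (p : ℝ) s (fun S => ind (fun S => ofS S ∈ A) S * ind (fun S => ofS S ∈ A) S) =
        Ex (p : ℝ) s (ind fun S => ofS S ∈ A) := by
      refine Pool.Agent.Perc.Ex_congr fun S _ => ?_
      rw [← pow_two, Pool.Agent.Perc.ind_sq]
    rw [this]
    ring
  rw [hcov] at key
  refine (le_abs_self _).trans (key.trans (le_of_eq ?_))
  refine Finset.sum_congr rfl fun b _ => ?_
  rw [Pr_BPiv hA iA, Pr_eq_Ex (localOn_revealed K.card b)]
  congr 1
  refine Pool.Agent.Perc.Ex_congr fun S _ => Pool.Agent.Perc.ind_congr ?_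
  rw [Finset.empty_union]
  rfl

end Pool.Agent.H85.Kes
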